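import Mathlib

set_option autoImplicit false

namespace Run7.h716.Branch

/-- branching sequence 3,2,2,2,... -/
abbrev m : ℕ → ℕ := fun i => if i = 0 then 3 else 2

/-- vertices of the tree -/
abbrev V : Type := {l : List ℕ // ∀ i (h : i < l.length), l.get ⟨i, h⟩ < m i}

/-- truncation to length `k` -/
def tr (k : ℕ) (v : V) : V :=
  ⟨v.1.take k, by
    intro i h
    have h2 : i < v.1.length := lt_of_lt_of_le h (by simp)
    have := v.2 i h2
    simpa using this⟩

@[simp] lemma tr_val (k : ℕ) (v : V) : (tr k v).1 = v.1.take k := rfl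

lemma tr_tr (j k : ℕ) (v : V) : tr j (tr k v) = tr (min j k) v := by
  apply Subtype.ext
  simp [List.take_take]

lemma tr_of_le (k : ℕ) (v : V) (h : v.1.length ≤ k) : tr k v = v := by
  apply Subtype.ext
  simp [List.take_of_length_le h]

lemma prefix_iff (v w : V) : v.1 <+: w.1 ↔ v = tr v.1.length w := by
  rw [List.prefix_iff_eq_take]
  constructor
  · intro h; exact Subtype.ext h
  · intro h; exact congrArg Subtype.val h

/-- commutes with truncations -/
def Auto (g : Equiv.Perm V) : Prop := ∀ k v, g (tr k v) = tr k (g v)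

lemma Auto.inv {g : Equiv.Perm V} (hg : Auto g) : Auto g⁻¹ := by
  intro k v
  apply g.injective
  rw [hg k]
  simp

lemma Auto.mul {g g' : Equiv.Perm V} (hg : Auto g) (hg' : Auto g') : Auto (g * g') := by
  intro k v
  rw [Equiv.Perm.mul_apply, Equiv.Perm.mul_apply, hg' k, hg k]

lemma Auto.length_le {g : Equiv.Perm V} (hg : Auto g) (v : V) : (g v).1.length ≤ v.1.length := by
  have h := hg v.1.length v
  rw [tr_of_le _ v le_rfl] at h
  have h2 := congrArg (fun w : V => w.1.length) h
  simp only [tr_val, List.length_take] at h2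
  omega

lemma Auto.length {g : Equiv.Perm V} (hg : Auto g) (v : V) : (g v).1.length = v.1.length := by
  apply le_antisymm (hg.length_le v)
  have := hg.inv.length_le (g v)
  simpa using this

lemma Auto.pfx {g : Equiv.Perm V} (hg : Auto g) (v w : V) :
    v.1 <+: w.1 ↔ (g v).1 <+: (g w).1 := by
  rw [prefix_iff, prefix_iff, hg.length, ← hg, g.apply_eq_iff_eq]

/-- the underlying function of the twisting permutation -/
def hf : List ℕ → List ℕ
  | a :: b :: w => (if b = 0 then (a + 1) % 3 else (a + 2) % 3) :: b :: w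
  | l => l

/-- its inverse -/
def hi : List ℕ → List ℕ
  | a :: b :: w => (if b = 0 then (a + 2) % 3 else (a + 1) % 3) :: b :: w
  | l => l

lemma valid_cons2 (a b : ℕ) (w : List ℕ) :
    (∀ i (h : i < (a :: b :: w).length), (a :: b :: w).get ⟨i, h⟩ < m i) ↔
      a < 3 ∧ b < 2 ∧ ∀ i (h : i < w.length), w.get ⟨i, h⟩ < 2 := by
  constructor
  · intro H
    refine ⟨?_, ?_, ?_⟩
    · have := H 0 (by simp)
      simp only [m, List.get_eq_getElem, List.getElem_cons_zero, if_true] at this
      exact this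
    · have := H 1 (by simp)
      simp only [m, List.get_eq_getElem, List.getElem_cons_succ, List.getElem_cons_zero,
        one_ne_zero, if_false] at this
      exact this
    · intro i h
      have := H (i + 2) (by simpa using h)
      simp only [m, List.get_eq_getElem, List.getElem_cons_succ, Nat.add_eq_zero_iff,
        OfNat.ofNat_ne_zero, and_false, if_false] at this
      exact this
  · rintro ⟨h1, h2, h3⟩ i h
    rcases i with _ | _ | i
    · exact h1
    · exact h2
    · have := h3 i (by simpa using h)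
      simp only [m, List.get_eq_getElem, List.getElem_cons_succ, Nat.add_eq_zero_iff,
        one_ne_zero, and_false, if_false]
      exact this

lemma hf_valid (l : List ℕ) (hl : ∀ i (h : i < l.length), l.get ⟨i, h⟩ < m i) :
    ∀ i (h : i < (hf l).length), (hf l).get ⟨i, h⟩ < m i := by
  match l with
  | [] => simpa [hf] using hl
  | [a] => simpa [hf] using hl
  | a :: b :: w =>
    rw [valid_cons2] at hl
    simp only [hf]
    rw [valid_cons2]
    refine ⟨?_, hl.2.1, hl.2.2⟩
    split_ifs <;> omega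

lemma hi_valid (l : List ℕ) (hl : ∀ i (h : i < l.length), l.get ⟨i, h⟩ < m i) :
    ∀ i (h : i < (hi l).length), (hi l).get ⟨i, h⟩ < m i := by
  match l with
  | [] => simpa [hi] using hl
  | [a] => simpa [hi] using hl
  | a :: b :: w =>
    rw [valid_cons2] at hl
    simp only [hi]
    rw [valid_cons2]
    refine ⟨?_, hl.2.1, hl.2.2⟩
    split_ifs <;> omega

lemma hi_hf (l : List ℕ) (hl : ∀ i (h : i < l.length), l.get ⟨i, h⟩ < m i) : hi (hf l) = l := by
  match l with
  | [] => rfl
  | [a] => rfl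
  | a :: b :: w =>
    rw [valid_cons2] at hl
    simp only [hf, hi]
    split_ifs
    · congr 1; omega
    · congr 1; omega

lemma hf_hi (l : List ℕ) (hl : ∀ i (h : i < l.length), l.get ⟨i, h⟩ < m i) : hf (hi l) = l := by
  match l with
  | [] => rfl
  | [a] => rfl
  | a :: b :: w =>
    rw [valid_cons2] at hl
    simp only [hf, hi]
    split_ifs
    · congr 1; omega
    · congr 1; omega

/-- the twisting permutation of the vertex set -/
def H : Equiv.Perm V where
  toFun v := ⟨hf v.1, hf_valid v.1 v.2⟩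
  invFun v := ⟨hi v.1, hi_valid v.1 v.2⟩
  left_inv v := Subtype.ext (hi_hf v.1 v.2)
  right_inv v := Subtype.ext (hf_hi v.1 v.2)

lemma hf_take (k : ℕ) (hk : 2 ≤ k) (l : List ℕ) : hf (l.take k) = (hf l).take k := by
  obtain ⟨k, rfl⟩ := Nat.exists_eq_add_of_le' hk
  match l with
  | [] => rfl
  | [a] => rfl
  | a :: b :: w => simp [hf]

lemma H_tr (k : ℕ) (hk : 2 ≤ k) (v : V) : H (tr k v) = tr k (H v) :=
  Subtype.ext (hf_take k hk v.1)

lemma H_short (v : V) (hv : v.1.length < 2) : H v = v := by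
  apply Subtype.ext
  change hf v.1 = v.1
  obtain ⟨l, hl⟩ := v
  match l with
  | [] => rfl
  | [a] => rfl
  | a :: b :: w => simp at hv

lemma H_length (v : V) : (H v).1.length = v.1.length := by
  change (hf v.1).length = v.1.length
  obtain ⟨l, hl⟩ := v
  match l with
  | [] => rfl
  | [a] => rfl
  | a :: b :: w => simp [hf]

/-- the branch group: tree automorphisms commuting with `H` on level 2 -/
def L : Subgroup (Equiv.Perm V) where
  carrier := {g | Auto g ∧ ∀ v : V, v.1.length = 2 → g (H v) = H (g v)}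
  mul_mem' := by
    rintro a b ⟨ha, ha'⟩ ⟨hb, hb'⟩
    refine ⟨ha.mul hb, fun v hv => ?_⟩
    rw [Equiv.Perm.mul_apply, Equiv.Perm.mul_apply, hb' v hv, ha' (b v) (by rw [hb.length, hv])]
  one_mem' := ⟨fun k v => rfl, fun v hv => rfl⟩
  inv_mem' := by
    rintro a ⟨ha, ha'⟩
    refine ⟨ha.inv, fun v hv => ?_⟩
    apply a.injective
    rw [ha' (a⁻¹ v) (by rw [ha.inv.length, hv])]
    simp

lemma mem_L (g : Equiv.Perm V) :
    g ∈ L ↔ Auto g ∧ ∀ v : V, v.1.length = 2 → g (H v) = H (g v) := Iff.rfl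

/-- conjugation by a permutation like `H` preserves `L` -/
lemma conj_mem (τ : Equiv.Perm V) (h1 : ∀ k, 2 ≤ k → ∀ v, τ (tr k v) = tr k (τ v))
    (h2 : ∀ v : V, v.1.length < 2 → τ v = v)
    (hlen : ∀ v : V, (τ v).1.length = v.1.length)
    (h3 : ∀ g ∈ L, ∀ v : V, v.1.length = 2 → g (τ v) = τ (g v))
    (g : Equiv.Perm V) (hg : g ∈ L) : τ * g * τ⁻¹ ∈ L := by
  have hA : Auto g := hg.1
  have h1' : ∀ k, 2 ≤ k → ∀ v, τ⁻¹ (tr k v) = tr k (τ⁻¹ v) := by
    intro k hk v
    apply τ.injective
    rw [h1 k hk]; simp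
  have h2' : ∀ v : V, v.1.length < 2 → τ⁻¹ v = v := by
    intro v hv
    apply τ.injective
    rw [h2 v hv]; simp
  have hlen' : ∀ v : V, (τ⁻¹ v).1.length = v.1.length := by
    intro v
    have := hlen (τ⁻¹ v)
    simpa using this.symm
  have key2 : ∀ v : V, v.1.length = 2 → (τ * g * τ⁻¹) v = g v := by
    intro v hv
    have : g (τ (τ⁻¹ v)) = τ (g (τ⁻¹ v)) := h3 g hg (τ⁻¹ v) (by rw [hlen', hv])
    simp only [Equiv.Perm.mul_apply]
    rw [← this]; simp
  have key1 : ∀ v : V, v.1.length < 2 → (τ * g * τ⁻¹) v = g v := by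
    intro v hv
    simp only [Equiv.Perm.mul_apply]
    rw [h2' v hv, h2 (g v) (by rw [hA.length]; exact hv)]
  have keyk : ∀ k, 2 ≤ k → ∀ v, (τ * g * τ⁻¹) (tr k v) = tr k ((τ * g * τ⁻¹) v) := by
    intro k hk v
    simp only [Equiv.Perm.mul_apply]
    rw [h1' k hk, hA, h1 k hk]
  constructor
  · intro k v
    rcases Nat.lt_or_ge k 2 with hk | hk
    · rcases Nat.lt_or_ge v.1.length 2 with hv | hv
      · rw [key1 v hv, key1 (tr k v) (by simp; omega), hA]
      · have e1 : tr k v = tr k (tr 2 v) := by rw [tr_tr]; congr 1; omega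
        have e2 : tr k ((τ * g * τ⁻¹) v) = tr k (tr 2 ((τ * g * τ⁻¹) v)) := by
          rw [tr_tr]; congr 1; omega
        rw [e2, ← keyk 2 le_rfl, key2 (tr 2 v) (by simp; omega), ← hA,
          key1 (tr k v) (by simp; omega), e1]
    · exact keyk k hk v
  · intro v hv
    rw [key2 v hv, key2 (H v) (by rw [H_length, hv]), hg.2 v hv]

lemma Hinv_comm (g : Equiv.Perm V) (hg : g ∈ L) (v : V) (hv : v.1.length = 2) :
    g (H⁻¹ v) = H⁻¹ (g v) := by
  apply H.injective
  have hl : (H⁻¹ v).1.length = 2 := by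
    have := H_length (H⁻¹ v)
    simp at this
    simpa [hv] using this.symm
  rw [← hg.2 (H⁻¹ v) hl]; simp

lemma conjH_mem (g : Equiv.Perm V) (hg : g ∈ L) : H * g * H⁻¹ ∈ L :=
  conj_mem H H_tr H_short H_length (fun g hg v hv => hg.2 v hv) g hg

lemma conjHinv_mem (g : Equiv.Perm V) (hg : g ∈ L) : H⁻¹ * g * H ∈ L := by
  have := conj_mem H⁻¹ (by
      intro k hk v
      apply H.injective
      rw [H_tr k hk]; simp) (by
      intro v hv
      apply H.injective
      rw [H_short v hv]; simp) (by
      intro v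
      have := H_length (H⁻¹ v)
      simpa using this.symm) (fun g hg v hv => Hinv_comm g hg v hv) g hg
  simpa using this

/-- the exotic automorphism -/
def φ : L ≃* L where
  toFun g := ⟨H * g.1 * H⁻¹, conjH_mem g.1 g.2⟩
  invFun g := ⟨H⁻¹ * g.1 * H, conjHinv_mem g.1 g.2⟩
  left_inv g := by apply Subtype.ext; simp [mul_assoc]
  right_inv g := by apply Subtype.ext; simp [mul_assoc]
  map_mul' a b := by apply Subtype.ext; simp [mul_assoc]

/-! ### letterwise automorphisms -/

/-- action on the letter in position `i` -/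
def P (c : ℕ) (e : ℕ → Bool) (i a : ℕ) : ℕ :=
  if i = 0 then (if e 1 then (c + 3 - a) % 3 else (a + c) % 3)
  else (if e i then 1 - a else a)

lemma P_lt (c : ℕ) (e : ℕ → Bool) (i a : ℕ) (h : a < m i) : P c e i a < m i := by
  unfold P
  simp only [m] at h ⊢
  split_ifs at h ⊢ <;> omega

/-- inverse parameter -/
def ci (c : ℕ) (e : ℕ → Bool) : ℕ := if e 1 then c else (3 - c)

lemma P_inv (c : ℕ) (e : ℕ → Bool) (hc : c < 3) (i a : ℕ) (h : a < m i) :
    P (ci c e) e i (P c e i a) = a := by
  unfold P ci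
  simp only [m] at h
  split_ifs at h ⊢ <;> omega

lemma P_inv' (c : ℕ) (e : ℕ → Bool) (hc : c < 3) (i a : ℕ) (h : a < m i) :
    P c e i (P (ci c e) e i a) = a := by
  unfold P ci
  simp only [m] at h
  split_ifs at h ⊢ <;> omega

/-- letterwise map on vertices -/
def Ff (c : ℕ) (e : ℕ → Bool) (v : V) : V :=
  ⟨v.1.mapIdx (P c e), by
    intro i h
    have h2 : i < v.1.length := by simpa using h
    have := P_lt c e i _ (v.2 i h2)
    simpa using this⟩

/-- letterwise automorphism -/
def F (c : ℕ) (hc : c < 3) (e : ℕ → Bool) : Equiv.Perm V where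
  toFun := Ff c e
  invFun := Ff (ci c e) e
  left_inv v := by
    apply Subtype.ext
    apply List.ext_getElem
    · simp [Ff]
    · intro i h1 h2
      simp only [Ff, List.getElem_mapIdx]
      exact P_inv c e hc i _ (v.2 i h2)
  right_inv v := by
    apply Subtype.ext
    apply List.ext_getElem
    · simp [Ff]
    · intro i h1 h2
      simp only [Ff, List.getElem_mapIdx]
      exact P_inv' c e hc i _ (v.2 i h2)

lemma F_apply (c : ℕ) (hc : c < 3) (e : ℕ → Bool) (v : V) :
    (F c hc e v).1 = v.1.mapIdx (P c e) := rfl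

lemma F_auto (c : ℕ) (hc : c < 3) (e : ℕ → Bool) : Auto (F c hc e) := by
  intro k v
  apply Subtype.ext
  rw [F_apply, tr_val, tr_val, F_apply]
  apply List.ext_getElem
  · simp
  · intro i h1 h2
    simp

lemma F_mem (c : ℕ) (hc : c < 3) (e : ℕ → Bool) : F c hc e ∈ L := by
  refine ⟨F_auto c hc e, ?_⟩
  rintro ⟨l, hl⟩ hv
  apply Subtype.ext
  match l, hl, hv with
  | [a, b], hl, hv =>
    rw [valid_cons2] at hl
    obtain ⟨ha, hb, -⟩ := hl
    rw [F_apply]
    change (hf [a, b]).mapIdx (P c e) = hf ([a, b].mapIdx (P c e))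
    simp only [hf, List.mapIdx_cons, List.mapIdx_nil, P]
    congr 1
    simp only [if_true, zero_add, one_ne_zero, if_false]
    split_ifs <;> omega

lemma trans_L (v w : V) (hvw : v.1.length = w.1.length) : ∃ g ∈ L, g v = w := by
  let e : ℕ → Bool := fun i => decide (v.1[i]? ≠ w.1[i]?)
  let v0 : ℕ := v.1[0]?.getD 0
  let w0 : ℕ := w.1[0]?.getD 0
  let c : ℕ := if e 1 then (w0 + v0) % 3 else (w0 + 3 - v0) % 3
  have hc : c < 3 := by
    simp only [c]; split_ifs <;> omega
  refine ⟨F c hc e, F_mem c hc e, ?_⟩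
  apply Subtype.ext
  rw [F_apply]
  apply List.ext_getElem
  · simpa using hvw
  · intro i h1 h2
    have h1' : i < v.1.length := by simpa using h1
    rw [List.getElem_mapIdx]
    have hvi := v.2 i h1'
    have hwi := w.2 i h2
    simp only [List.get_eq_getElem] at hvi hwi
    by_cases hi : i = 0
    · subst hi
      have hv0 : v0 = v.1[0] := by simp [v0, h1']
      have hw0 : w0 = w.1[0] := by simp [w0, h2]
      simp only [m, if_true] at hvi hwi
      rw [← hv0, ← hw0] at *
      simp only [P, if_true, c]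
      rw [← hv0] 
      split_ifs <;> omega
    · simp only [m, hi, if_false] at hvi hwi
      simp only [P, hi, if_false, e]
      have e1 : v.1[i]? = some v.1[i] := List.getElem?_eq_getElem h1'
      have e2 : w.1[i]? = some w.1[i] := List.getElem?_eq_getElem h2
      by_cases heq : v.1[i] = w.1[i]
      · simp [heq, e1, e2]
      · have : decide (v.1[i]? ≠ w.1[i]?) = true := by simp [heq, e1, e2]
        rw [if_pos this]
        omega

/-! ### restricting an element to a union of subtrees -/

/-- below level `N` and with truncation in `A` -/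
def Q (N : ℕ) (A : Set V) (v : V) : Prop := N ≤ v.1.length ∧ tr N v ∈ A

/-- fixes everything up to level `N` -/
def Fix (N : ℕ) (g : Equiv.Perm V) : Prop := ∀ v : V, v.1.length ≤ N → g v = v

lemma Q_iff {N : ℕ} {g : Equiv.Perm V} (hg : Auto g) (hf : Fix N g) (A : Set V) (v : V) :
    Q N A (g v) ↔ Q N A v := by
  unfold Q
  rw [hg.length, ← hg, hf (tr N v) (by simp)]

open Classical in
/-- the restriction of `g` to the subtrees rooted at the elements of `A` -/
noncomputable def R (N : ℕ) (A : Set V) (g : Equiv.Perm V) (hg : Auto g) (hf : Fix N g) :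
    Equiv.Perm V :=
  Equiv.Perm.ofSubtype (g.subtypePerm (Q_iff hg hf A))

open Classical in
lemma R_of_Q {N : ℕ} {A : Set V} {g : Equiv.Perm V} (hg : Auto g) (hf : Fix N g) {v : V}
    (h : Q N A v) : R N A g hg hf v = g v := by
  unfold R
  rw [Equiv.Perm.ofSubtype_subtypePerm_of_mem _ h]

open Classical in
lemma R_of_not_Q {N : ℕ} {A : Set V} {g : Equiv.Perm V} (hg : Auto g) (hf : Fix N g) {v : V}
    (h : ¬ Q N A v) : R N A g hg hf v = v := by
  unfold R
  rw [Equiv.Perm.ofSubtype_apply_of_not_mem _ h]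

lemma R_fix {N : ℕ} {A : Set V} {g : Equiv.Perm V} (hg : Auto g) (hf : Fix N g) :
    Fix N (R N A g hg hf) := by
  intro v hv
  by_cases h : Q N A v
  · rw [R_of_Q hg hf h, hf v hv]
  · rw [R_of_not_Q hg hf h]

lemma R_auto {N : ℕ} {A : Set V} {g : Equiv.Perm V} (hg : Auto g) (hf : Fix N g) :
    Auto (R N A g hg hf) := by
  intro k v
  by_cases h : Q N A v
  · rw [R_of_Q hg hf h]
    by_cases h2 : Q N A (tr k v)
    · rw [R_of_Q hg hf h2, hg]
    · rw [R_of_not_Q hg hf h2, ← hg, hf]
      by_contra h3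
      push Not at h3
      apply h2
      refine ⟨h3.le, ?_⟩
      have h4 : N < k := by simp at h3; omega
      rw [tr_tr, min_eq_left h4.le]
      exact h.2
  · rw [R_of_not_Q hg hf h]
    by_cases h2 : Q N A (tr k v)
    · exfalso
      apply h
      obtain ⟨h3, h4⟩ := h2
      simp only [tr_val, List.length_take] at h3
      rw [tr_tr, min_eq_left (by omega)] at h4
      exact ⟨by omega, h4⟩
    · rw [R_of_not_Q hg hf h2]

lemma fix_mem_L {N : ℕ} (hN : 2 ≤ N) {g : Equiv.Perm V} (hg : Auto g) (hf : Fix N g) : g ∈ L := by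
  refine ⟨hg, fun v hv => ?_⟩
  rw [hf v (by omega), hf (H v) (by rw [H_length]; omega)]

lemma R_mem {N : ℕ} (hN : 2 ≤ N) {A : Set V} {g : Equiv.Perm V} (hg : Auto g) (hf : Fix N g) :
    R N A g hg hf ∈ L := fix_mem_L hN (R_auto hg hf) (R_fix hg hf)

/-- the generating set of the level `n` rigid stabiliser, as in the statement -/
def S (n : ℕ) : Set (Equiv.Perm V) :=
  {g : Equiv.Perm V | g ∈ L ∧ ∃ u : V, u.1.length = n ∧
            ∀ v : V, ¬ List.IsPrefix u.1 v.1 → g v = v}

lemma R_singleton_mem {N n : ℕ} (hN : 2 ≤ N) (hn : n ≤ N) {u : V} (hu : u.1.length = N)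
    {g : Equiv.Perm V} (hg : Auto g) (hf : Fix N g) : R N {u} g hg hf ∈ S n := by
  refine ⟨R_mem hN hg hf, tr n u, by simp; omega, ?_⟩
  intro v hv
  apply R_of_not_Q hg hf
  rintro ⟨h1, h2⟩
  apply hv
  rw [Set.mem_singleton_iff] at h2
  rw [← h2]
  simp only [tr_val, List.take_take]
  exact List.take_prefix _ _

lemma R_insert {N : ℕ} {A : Set V} {u : V} (hu : u ∉ A) {g : Equiv.Perm V}
    (hg : Auto g) (hf : Fix N g) :
    R N (insert u A) g hg hf = R N A g hg hf * R N {u} g hg hf := by
  apply Equiv.ext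
  intro v
  rw [Equiv.Perm.mul_apply]
  by_cases h : Q N {u} v
  · have h1 : Q N (insert u A) v := ⟨h.1, Or.inl h.2⟩
    rw [R_of_Q hg hf h1, R_of_Q hg hf h, R_of_not_Q hg hf]
    rw [Q_iff hg hf]
    rintro ⟨_, h3⟩
    have h4 := h.2
    rw [Set.mem_singleton_iff] at h4
    rw [h4] at h3
    exact hu h3
  · rw [R_of_not_Q hg hf h]
    by_cases h2 : Q N A v
    · rw [R_of_Q hg hf h2, R_of_Q hg hf ⟨h2.1, Or.inr h2.2⟩]
    · rw [R_of_not_Q hg hf h2, R_of_not_Q hg hf]
      rintro ⟨h3, h4⟩
      rcases h4 with h4 | h4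
      · exact h ⟨h3, h4⟩
      · exact h2 ⟨h3, h4⟩

lemma R_mem_closure {N n : ℕ} (hN : 2 ≤ N) (hn : n ≤ N) {g : Equiv.Perm V} (hg : Auto g)
    (hf : Fix N g) (A : Set V) (hA : A.Finite) (hA' : ∀ u ∈ A, u.1.length = N) :
    R N A g hg hf ∈ Subgroup.closure (S n) := by
  induction A, hA using Set.Finite.induction_on with
  | empty =>
    have : R N ∅ g hg hf = 1 := by
      apply Equiv.ext
      intro v
      rw [R_of_not_Q hg hf]
      · rfl
      · rintro ⟨_, h⟩; exact h
    rw [this]
    exact Subgroup.one_mem _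
  | insert hu _ ih =>
    rw [R_insert hu hg hf]
    apply Subgroup.mul_mem
    · exact ih fun u' hu' => hA' u' (Or.inr hu')
    · exact Subgroup.subset_closure (R_singleton_mem hN hn (hA' _ (Or.inl rfl)) hg hf)

lemma finite_level (N : ℕ) : {v : V | v.1.length ≤ N}.Finite := by
  have : Set.Finite {l : List (Fin 3) | l.length ≤ N} := List.finite_length_le _ N
  have hinj : Function.Injective (fun v : V => v.1.map (fun a => (Fin.ofNat 3 a))) := by
    intro v w h
    apply Subtype.ext
    have hlen : v.1.length = w.1.length := by simpa using congrArg List.length h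
    apply List.ext_getElem hlen
    intro i h1 h2
    have h3 : (v.1.map (fun a => (Fin.ofNat 3 a)))[i]'(by simpa using h1) =
        (w.1.map (fun a => (Fin.ofNat 3 a)))[i]'(by simpa using h2) := by
      simp only [h]
    simp only [List.getElem_map] at h3
    have h4 := congrArg Fin.val h3
    simp only [Fin.ofNat] at h4
    have hv := v.2 i h1
    have hw := w.2 i h2
    simp only [m, List.get_eq_getElem] at hv hw
    have hv' : v.1[i] < 3 := by split_ifs at hv <;> omega
    have hw' : w.1[i] < 3 := by split_ifs at hw <;> omega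
    omega
  refine Set.Finite.of_finite_image (f := fun v : V => v.1.map (fun a => (Fin.ofNat 3 a)))
    (this.subset ?_) hinj.injOn
  rintro _ ⟨v, hv, rfl⟩
  simpa using hv

lemma fix_mem_closure {N n : ℕ} (hN : 2 ≤ N) (hn : n ≤ N) {g : Equiv.Perm V} (hg : Auto g)
    (hf : Fix N g) : g ∈ Subgroup.closure (S n) := by
  have h1 : R N {u : V | u.1.length = N} g hg hf = g := by
    apply Equiv.ext
    intro v
    by_cases h : Q N {u : V | u.1.length = N} v
    · rw [R_of_Q hg hf h]
    · rw [R_of_not_Q hg hf h]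
      rcases Nat.lt_or_ge v.1.length N with h2 | h2
      · rw [hf v h2.le]
      · exfalso
        apply h
        refine ⟨h2, ?_⟩
        simp; omega
  rw [← h1]
  apply R_mem_closure hN hn hg hf
  · exact (finite_level N).subset fun v (hv : v.1.length = N) => hv.le
  · intro u hu; exact hu

/-- action on the vertices of level at most `N` -/
def θ (N : ℕ) : L →* Equiv.Perm {v : V // v.1.length ≤ N} where
  toFun g := g.1.subtypePerm (fun v => by rw [g.2.1.length])
  map_one' := by apply Equiv.ext; intro v; rfl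
  map_mul' a b := by apply Equiv.ext; intro v; rfl

lemma index_ne (n : ℕ) : ((Subgroup.closure (S n)).subgroupOf L).index ≠ 0 := by
  let N := max n 2
  have : Finite {v : V // v.1.length ≤ N} := (finite_level N).to_subtype
  have h1 : (θ N).ker.FiniteIndex := Subgroup.finiteIndex_ker _
  have h2 : (θ N).ker ≤ (Subgroup.closure (S n)).subgroupOf L := by
    intro g hg
    rw [Subgroup.mem_subgroupOf]
    apply fix_mem_closure (N := N) (le_max_right _ _) (le_max_left _ _) g.2.1
    intro v hv
    rw [MonoidHom.mem_ker] at hg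
    have := congrArg (fun σ => (σ ⟨v, hv⟩ : {v : V // v.1.length ≤ N}).1) hg
    exact this
  have h3 : ((Subgroup.closure (S n)).subgroupOf L).FiniteIndex := Subgroup.finiteIndex_of_le h2
  exact h3.index_ne_zero

/-! ### the automorphism is not induced by a tree automorphism -/

/-- the automorphism flipping the third letter -/
def flip3 : Equiv.Perm V := F 0 (by norm_num) (fun i => decide (i = 2))

lemma flip3_auto : Auto flip3 := F_auto _ _ _

lemma flip3_fix : Fix 2 flip3 := by
  intro v hv
  apply Subtype.ext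
  unfold flip3
  rw [F_apply]
  apply List.ext_getElem
  · simp
  · intro i h1 h2
    rw [List.getElem_mapIdx]
    have := v.2 i h2
    simp only [m, List.get_eq_getElem] at this
    unfold P
    by_cases h0 : i = 0
    · subst h0
      simp at this ⊢
      omega
    · have h2' : ¬ i = 2 := by omega
      simp [h0, h2']

/-- vertex `[a,b,c]` -/
def vx (a b c : ℕ) (ha : a < 3) (hb : b < 2) (hc : c < 2) : V :=
  ⟨[a, b, c], by
    rw [valid_cons2]
    refine ⟨ha, hb, ?_⟩
    intro i h
    have : i = 0 := by simpa using h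
    subst this
    simpa using hc⟩

/-- vertex `[a,b]` -/
def vy (a b : ℕ) (ha : a < 3) (hb : b < 2) : V :=
  ⟨[a, b], by
    rw [valid_cons2]
    refine ⟨ha, hb, ?_⟩
    intro i h
    simp at h⟩

lemma flip3_vx (a b : ℕ) (ha : a < 3) (hb : b < 2) :
    flip3 (vx a b 0 ha hb (by norm_num)) = vx a b 1 ha hb (by norm_num) := by
  apply Subtype.ext
  unfold flip3
  rw [F_apply]
  simp only [vx, List.mapIdx_cons, List.mapIdx_nil, P]
  simp
  omega

lemma key (σ : Equiv.Perm V)
    (hσ : ∀ g : L, ((φ g : L) : Equiv.Perm V) = σ * (g : Equiv.Perm V) * σ⁻¹)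
    (a b : ℕ) (ha : a < 3) (hb : b < 2) :
    tr 2 (σ (vx a b 0 ha hb (by norm_num))) = H (vy a b ha hb) := by
  have hmem : R 2 {vy a b ha hb} flip3 flip3_auto flip3_fix ∈ L := R_mem le_rfl _ _
  have h1 := hσ ⟨_, hmem⟩
  have h2 := congrArg (fun τ : Equiv.Perm V => τ (σ (vx a b 0 ha hb (by norm_num)))) h1
  simp only [Equiv.Perm.mul_apply, Equiv.Perm.coe_inv, Equiv.symm_apply_apply] at h2
  have hQ : Q 2 {vy a b ha hb} (vx a b 0 ha hb (by norm_num)) := by
    refine ⟨by simp [vx], ?_⟩
    rw [Set.mem_singleton_iff]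
    apply Subtype.ext
    simp [vx, vy]
  rw [R_of_Q flip3_auto flip3_fix hQ, flip3_vx] at h2
  change H (R 2 {vy a b ha hb} flip3 flip3_auto flip3_fix
    (H⁻¹ (σ (vx a b 0 ha hb (by norm_num))))) = _ at h2
  by_cases h3 : Q 2 {vy a b ha hb} (H⁻¹ (σ (vx a b 0 ha hb (by norm_num))))
  · have h4 := h3.2
    rw [Set.mem_singleton_iff] at h4
    rw [← h4, H_tr 2 le_rfl]
    simp
  · exfalso
    rw [R_of_not_Q flip3_auto flip3_fix h3] at h2
    simp only [Equiv.Perm.coe_inv, Equiv.apply_symm_apply] at h2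
    have h5 := σ.injective h2
    have h6 := congrArg Subtype.val h5
    simp [vx] at h6

theorem no_sigma (σ : Equiv.Perm V)
    (hp : ∀ v w : V, (List.IsPrefix v.1 w.1 ↔ List.IsPrefix (σ v).1 (σ w).1))
    (hσ : ∀ g : L, ((φ g : L) : Equiv.Perm V) = σ * (g : Equiv.Perm V) * σ⁻¹) : False := by
  have k1 := key σ hσ 0 0 (by norm_num) (by norm_num)
  have k2 := key σ hσ 0 1 (by norm_num) (by norm_num)
  let p : V := ⟨[0], by intro i h; have : i = 0 := by simpa using h
                        subst this; simp [m]⟩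
  let r : V := ⟨[], by intro i h; simp at h⟩
  have p1 : (σ p).1 <+: (σ (vx 0 0 0 (by norm_num) (by norm_num) (by norm_num))).1 :=
    (hp _ _).1 ⟨[0, 0], rfl⟩
  have p2 : (σ p).1 <+: (σ (vx 0 1 0 (by norm_num) (by norm_num) (by norm_num))).1 :=
    (hp _ _).1 ⟨[1, 0], rfl⟩
  have p3 : (σ r).1 <+: (σ p).1 := (hp _ _).1 ⟨[0], rfl⟩
  have q1 := congrArg Subtype.val k1
  have q2 := congrArg Subtype.val k2
  have e1 : (H (vy 0 0 (by norm_num) (by norm_num))).1 = [1, 0] := rfl
  have e2 : (H (vy 0 1 (by norm_num) (by norm_num))).1 = [2, 1] := rfl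
  rw [e1] at q1
  rw [e2] at q2
  simp only [tr_val] at q1 q2
  have hnil : (σ p).1 = [] := by
    rcases hs : (σ p).1 with _ | ⟨x, xs⟩
    · rfl
    · exfalso
      rw [hs] at p1 p2
      obtain ⟨t1, ht1⟩ := p1
      obtain ⟨t2, ht2⟩ := p2
      rw [← ht1] at q1
      rw [← ht2] at q2
      simp only [List.cons_append, List.take_succ_cons, List.cons.injEq] at q1 q2
      omega
  have hr : σ r = σ p := by
    apply Subtype.ext
    rw [hnil] at p3 ⊢
    exact List.prefix_nil.1 p3
  have := congrArg Subtype.val (σ.injective hr)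
  simp [r, p] at this

end Run7.h716.Branch
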